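import Mathlib
import Pool.Agent.Q150.DimN3Last

/-!
# Affine dimension of small (n_3) configurations

Every realizable `(n_3)` configuration with `n ≤ 14` has dimension 2 or 3.
-/

namespace Pool.Agent.Results.MP_ac1762_co.AffineDimension

open Finset Module

/-- A combinatorial `(n_3)` configuration with point set `P` (so `n` is the cardinality of `P`):
`n` lines, each a 3-element set of points, every point on exactly 3 lines, and two distinct points
on at most one common line. -/
structure Configuration (P : Type) [Fintype P] [DecidableEq P] where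
  lines : Finset (Finset P)
  card_lines : lines.card = Fintype.card P
  card_line : ∀ L ∈ lines, L.card = 3
  degree : ∀ p : P, (lines.filter (fun L => p ∈ L)).card = 3
  inter : ∀ p q : P, p ≠ q → ∀ L ∈ lines, ∀ L' ∈ lines, p ∈ L → q ∈ L → p ∈ L' → q ∈ L' → L = L'

/-- A geometric representation of `C` in `ℝ^m`: points go injectively to points, lines go to
pairwise distinct straight lines (nonempty affine subspaces with one-dimensional direction), and
an image point lies on an image line if and only if the point is incident with the line. -/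
structure Representation {P : Type} [Fintype P] [DecidableEq P] (C : Configuration P)
    (m : ℕ) where
  pt : P → EuclideanSpace ℝ (Fin m)
  ln : {L : Finset P // L ∈ C.lines} → AffineSubspace ℝ (EuclideanSpace ℝ (Fin m))
  ln_nonempty : ∀ L, (ln L : Set (EuclideanSpace ℝ (Fin m))).Nonempty
  ln_direction : ∀ L, finrank ℝ (ln L).direction = 1
  pt_injective : Function.Injective pt
  ln_injective : Function.Injective ln
  incidence : ∀ (p : P) (L : {L : Finset P // L ∈ C.lines}), pt p ∈ ln L ↔ p ∈ L.1

/-- The dimension of the affine hull of the image point set of a representation. -/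
noncomputable def affineDim {P : Type} [Fintype P] [DecidableEq P] {C : Configuration P} {m : ℕ}
    (ρ : Representation C m) : ℕ :=
  finrank ℝ (vectorSpan ℝ (Set.range ρ.pt))

/-- `C` is realizable if it has a geometric representation in some `ℝ^m`. -/
def Realizable {P : Type} [Fintype P] [DecidableEq P] (C : Configuration P) : Prop :=
  ∃ m : ℕ, Nonempty (Representation C m)

/-- `C` has dimension `d` if `d` is the largest dimension of the affine hull of the image point
set of a representation of `C` in some `ℝ^m`. -/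
def HasDimension {P : Type} [Fintype P] [DecidableEq P] (C : Configuration P) (d : ℕ) : Prop :=
  IsGreatest {d : ℕ | ∃ (m : ℕ) (ρ : Representation C m), affineDim ρ = d} d

section

variable {P : Type} [Fintype P] [DecidableEq P] {C : Configuration P} {m : ℕ}

theorem collinear_of (ρ : Representation C m) {L : Finset P} (hL : L ∈ C.lines) {a b c : P}
    (ha : a ∈ L) (hb : b ∈ L) (hc : c ∈ L) (hab : a ≠ b) :
    ∃ t : ℝ, ρ.pt c - ρ.pt a = t • (ρ.pt b - ρ.pt a) := by
  have h1 := (ρ.incidence a ⟨L, hL⟩).mpr ha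
  have h2 := (ρ.incidence b ⟨L, hL⟩).mpr hb
  have h3 := (ρ.incidence c ⟨L, hL⟩).mpr hc
  have d1 : ρ.pt b - ρ.pt a ∈ (ρ.ln ⟨L, hL⟩).direction := by
    have := AffineSubspace.vsub_mem_direction h2 h1
    simpa using this
  have d2 : ρ.pt c - ρ.pt a ∈ (ρ.ln ⟨L, hL⟩).direction := by
    have := AffineSubspace.vsub_mem_direction h3 h1
    simpa using this
  have hne : (⟨ρ.pt b - ρ.pt a, d1⟩ : (ρ.ln ⟨L, hL⟩).direction) ≠ 0 := by
    intro h
    have h' := congrArg Subtype.val h
    simp only [ZeroMemClass.coe_zero] at h'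
    exact hab (ρ.pt_injective (sub_eq_zero.mp h')).symm
  obtain ⟨t, ht⟩ := (finrank_eq_one_iff_of_nonzero' _ hne).mp (ρ.ln_direction ⟨L, hL⟩)
    ⟨ρ.pt c - ρ.pt a, d2⟩
  exact ⟨t, (congrArg Subtype.val ht).symm⟩

theorem mem_of_combo (ρ : Representation C m) {L : Finset P} (hL : L ∈ C.lines) {a b s : P}
    (ha : a ∈ L) (hb : b ∈ L) (t : ℝ) (h : ρ.pt s = ρ.pt a + t • (ρ.pt b - ρ.pt a)) : s ∈ L := by
  have h1 := (ρ.incidence a ⟨L, hL⟩).mpr ha
  have h2 := (ρ.incidence b ⟨L, hL⟩).mpr hb
  apply (ρ.incidence s ⟨L, hL⟩).mp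
  have := AffineMap.lineMap_mem (k := ℝ) t h1 h2
  rw [AffineMap.lineMap_apply] at this
  rw [h]
  simpa [add_comm] using this

theorem two_le (ρ : Representation C m) [Nonempty P] : 2 ≤ affineDim ρ := by
  by_contra hlt
  obtain ⟨p⟩ := (inferInstance : Nonempty P)
  obtain ⟨L, hL, L', hL', hne⟩ := Finset.one_lt_card.mp
    (by rw [C.degree p]; norm_num : 1 < (C.lines.filter (fun L => p ∈ L)).card)
  rw [Finset.mem_filter] at hL hL'
  obtain ⟨a, ha, hap⟩ := Finset.exists_mem_ne (by rw [C.card_line L hL.1]; norm_num : 1 < L.card) p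
  obtain ⟨c, hc, hcp⟩ := Finset.exists_mem_ne
    (by rw [C.card_line L' hL'.1]; norm_num : 1 < L'.card) p
  have hcL : c ∉ L := by
    intro h
    exact hne (C.inter p c hcp.symm L hL.1 L' hL'.1 hL.2 h hL'.2 hc)
  have hmem : ∀ q : P, ρ.pt q - ρ.pt p ∈ vectorSpan ℝ (Set.range ρ.pt) := by
    intro q
    have := vsub_mem_vectorSpan ℝ (Set.mem_range_self (f := ρ.pt) q)
      (Set.mem_range_self (f := ρ.pt) p)
    simpa using this
  have hane : (⟨ρ.pt a - ρ.pt p, hmem a⟩ : vectorSpan ℝ (Set.range ρ.pt)) ≠ 0 := by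
    intro h
    have h' := congrArg Subtype.val h
    simp only [ZeroMemClass.coe_zero] at h'
    exact hap (ρ.pt_injective (sub_eq_zero.mp h'))
  have hpos : 0 < finrank ℝ (vectorSpan ℝ (Set.range ρ.pt)) :=
    finrank_pos_iff_exists_ne_zero.mpr ⟨_, hane⟩
  have h1 : finrank ℝ (vectorSpan ℝ (Set.range ρ.pt)) = 1 := by
    unfold affineDim at hlt; omega
  obtain ⟨t, ht⟩ := (finrank_eq_one_iff_of_nonzero' _ hane).mp h1 ⟨ρ.pt c - ρ.pt p, hmem c⟩
  have ht' : t • (ρ.pt a - ρ.pt p) = ρ.pt c - ρ.pt p := congrArg Subtype.val ht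
  exact hcL (mem_of_combo ρ hL.1 hL.2 ha t (by rw [ht']; abel))

/-- homogeneous coordinates -/
noncomputable def hv (ρ : Representation C m) (p : P) : ℝ × EuclideanSpace ℝ (Fin m) :=
  (1, ρ.pt p)

theorem rank_bound (ρ : Representation C m) [Nonempty P]
    (U : Submodule ℝ (ℝ × EuclideanSpace ℝ (Fin m))) (hU : ∀ p, hv ρ p ∈ U) :
    affineDim ρ + 1 ≤ finrank ℝ U := by
  obtain ⟨p0⟩ := (inferInstance : Nonempty P)
  set W : Submodule ℝ (ℝ × EuclideanSpace ℝ (Fin m)) :=
    (vectorSpan ℝ (Set.range ρ.pt)).map (LinearMap.inr ℝ ℝ (EuclideanSpace ℝ (Fin m))) with hW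
  have hWf : finrank ℝ W = affineDim ρ := by
    rw [hW]
    exact (LinearEquiv.finrank_eq (Submodule.equivMapOfInjective _ LinearMap.inr_injective _)).symm
  have hle : W ≤ U := by
    rw [hW, Submodule.map_le_iff_le_comap, vectorSpan_def, Submodule.span_le]
    rintro x ⟨y, ⟨q, rfl⟩, z, ⟨r, rfl⟩, rfl⟩
    have : hv ρ q - hv ρ r ∈ U := U.sub_mem (hU q) (hU r)
    have e : hv ρ q - hv ρ r =
        LinearMap.inr ℝ ℝ (EuclideanSpace ℝ (Fin m)) (ρ.pt q -ᵥ ρ.pt r) := by
      unfold hv
      simp
    rw [e] at this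
    exact this
  have hlt : W < U := by
    refine lt_of_le_of_ne hle ?_
    intro h
    have : hv ρ p0 ∈ W := by rw [h]; exact hU p0
    rw [hW] at this
    obtain ⟨x, -, hx⟩ := this
    have h1 := congrArg Prod.fst hx
    unfold hv at h1
    simp at h1
  have := Submodule.finrank_lt_finrank_of_lt hlt
  omega

/-- A representation of affine dimension at least four gives a model. -/
noncomputable def toModel (ρ : Representation C m) [Nonempty P] (h4 : 4 ≤ affineDim ρ) :
    Q150DimN3.Model P (ℝ × EuclideanSpace ℝ (Fin m)) where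
  lines := C.lines
  card3 := C.card_line
  deg3 := C.degree
  pair := C.inter
  v := hv ρ
  ind := by
    intro p q hpq a b h
    have h1 := congrArg Prod.fst h
    have h2 := congrArg Prod.snd h
    simp only [hv, Prod.fst_add, Prod.smul_fst, smul_eq_mul, mul_one, Prod.fst_zero] at h1
    simp only [hv, Prod.snd_add, Prod.smul_snd, Prod.snd_zero] at h2
    have hb : b = -a := by linarith
    subst hb
    have h3 : a • (ρ.pt p - ρ.pt q) = 0 := by
      rw [← h2]; module
    rcases smul_eq_zero.mp h3 with h | h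
    · subst h; simp
    · exact absurd (ρ.pt_injective (sub_eq_zero.mp h)) hpq
  dep := by
    intro a b c hab hac hbc hL
    obtain ⟨t, ht⟩ := collinear_of ρ hL (a := a) (b := b) (c := c) (by simp) (by simp) (by simp)
      hab
    refine ⟨1 - t, t, ?_⟩
    unfold hv
    ext1
    · simp
    · simp only [Prod.snd_add, Prod.smul_snd]
      have : ρ.pt c = ρ.pt a + t • (ρ.pt b - ρ.pt a) := by rw [← ht]; abel
      rw [this]; module
  off := by
    intro a b c s hab hac hbc hL h1 h2 h3 α β h
    have e1 := congrArg Prod.fst h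
    have e2 := congrArg Prod.snd h
    simp only [hv, Prod.fst_add, Prod.smul_fst, smul_eq_mul, mul_one] at e1
    simp only [hv, Prod.snd_add, Prod.smul_snd] at e2
    have hα : α = 1 - β := by linarith
    subst hα
    have hs := mem_of_combo ρ hL (a := a) (b := b) (s := s) (by simp) (by simp) β
      (by rw [e2]; module)
    simp only [Finset.mem_insert, Finset.mem_singleton] at hs
    tauto
  big := by
    classical
    intro u1 u2 u3 u4
    set U := Submodule.span ℝ (({u1, u2, u3, u4} : Finset (ℝ × EuclideanSpace ℝ (Fin m))) :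
      Set (ℝ × EuclideanSpace ℝ (Fin m))) with hU
    have hUf : finrank ℝ U ≤ 4 :=
      (finrank_span_finset_le_card _).trans Finset.card_le_four
    have hex : ∃ p, hv ρ p ∉ U := by
      by_contra hcon
      push Not at hcon
      have := rank_bound ρ U hcon
      omega
    obtain ⟨p, hp⟩ := hex
    obtain ⟨f, hf, hk⟩ := Submodule.exists_le_ker_of_notMem hp
    refine ⟨f, ?_, ?_, ?_, ?_, p, hf⟩
    all_goals
      apply LinearMap.mem_ker.mp
      apply hk
      rw [hU]
      apply Submodule.subset_span
      simp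

theorem le_three (ρ : Representation C m) [Nonempty P] (hn : Fintype.card P ≤ 14) :
    affineDim ρ ≤ 3 := by
  by_contra hlt
  have := (toModel ρ (by omega)).fifteen_le
  omega

end

/-- **Theorem.** Let `C` be a realizable `(n_3)` configuration with `n ≤ 14` points. Then every
geometric representation of `C` spans an affine space of dimension 2 or 3, and `C` has
dimension 2 or 3. -/
theorem result (P : Type) [Fintype P] [DecidableEq P] [Nonempty P] (C : Configuration P)
    (hn : Fintype.card P ≤ 14) (hC : Realizable C) :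
    (∀ (m : ℕ) (ρ : Representation C m), affineDim ρ = 2 ∨ affineDim ρ = 3) ∧
      (HasDimension C 2 ∨ HasDimension C 3) := by
  have key : ∀ (m : ℕ) (ρ : Representation C m), affineDim ρ = 2 ∨ affineDim ρ = 3 := by
    intro m ρ
    have h1 := two_le ρ
    have h2 := le_three ρ hn
    omega
  refine ⟨key, ?_⟩
  by_cases h3 : ∃ (m : ℕ) (ρ : Representation C m), affineDim ρ = 3
  · right
    refine ⟨h3, ?_⟩
    rintro d ⟨m, ρ, rfl⟩
    rcases key m ρ with h | h <;> omega
  · left
    obtain ⟨m, ⟨ρ⟩⟩ := hC
    have h2 : affineDim ρ = 2 := by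
      rcases key m ρ with h | h
      · exact h
      · exact absurd ⟨m, ρ, h⟩ h3
    refine ⟨⟨m, ρ, h2⟩, ?_⟩
    rintro d ⟨m', ρ', rfl⟩
    rcases key m' ρ' with h | h
    · omega
    · exact absurd ⟨m', ρ', h⟩ h3

end Pool.Agent.Results.MP_ac1762_co.AffineDimension
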